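import Mathlib
import Pool.Agent.L0h42.CL.Stm

/-!
# Project CL, module MAIN: the main terms
-/

set_option autoImplicit false

namespace Pool.Agent.L0h85.CL
open Finset
open Pool.Agent.L0h42.TB
open Pool.Agent.L0h42.CL
open Pool.Agent.H373R2.T7
open Pool.Agent.H807R2.Dav

lemma Vq_mem {k : ℕ} (a0 b0 : ℤ) (h : Fin k → ℕ) (z a : ℕ) : 0 ≤ Vq a0 b0 h z a ∧ Vq a0 b0 h z a ≤ 1 := by
  classical
  have key : ∀ p ∈ pz z, 0 ≤ 1 - (nuq a0 b0 h p a : ℝ) / p ∧ 1 - (nuq a0 b0 h p a : ℝ) / p ≤ 1 := by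
    intro p hp
    have hp0 : (0 : ℝ) < p := by exact_mod_cast (mem_pz.1 hp).2.pos
    have h1 : (nuq a0 b0 h p a : ℝ) ≤ p := by
      have : nuq a0 b0 h p a ≤ p := by
        unfold nuq
        exact (card_filter_le _ _).trans (by rw [card_range])
      exact_mod_cast this
    constructor
    · rw [sub_nonneg, div_le_one hp0]
      exact h1
    · have : (0 : ℝ) ≤ (nuq a0 b0 h p a : ℝ) / p := by positivity
      linarith
  unfold Vq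
  exact ⟨prod_nonneg fun p hp => (key p hp).1, prod_le_one (fun p hp => (key p hp).1) fun p hp => (key p hp).2⟩

open Classical in
/-- the sum over all pairs is the sum over the pairs without and with conflict -/
lemma split_sum {k : ℕ} (z R : ℕ) (f : (Fin k → ℕ) × (Fin k → ℕ) → ℝ) :
    ∑ x ∈ PD (Fin k) z R ×ˢ PD (Fin k) z R, f x = ∑ x ∈ NCF k z R, f x + ∑ x ∈ CFS k z R, f x := by
  unfold NCF CFS
  rw [add_comm]
  exact (sum_filter_add_sum_filter_not _ _ _).symm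

lemma Qf_eq {k : ℕ} (z R : ℕ) (Λ : (Fin k → ℕ) → ℝ) :
    Qf z R Λ = ∑ x ∈ PD (Fin k) z R ×ˢ PD (Fin k) z R, Λ x.1 * Λ x.2 * (1 / (mo x : ℝ)) := by
  unfold Qf
  rw [sum_product]
  refine sum_congr rfl fun d _ => sum_congr rfl fun e _ => ?_
  congr 1
  unfold mo lc
  push_cast
  rw [one_div, ← prod_inv_distrib]
  exact prod_congr rfl fun w _ => one_div _

open Classical in
/-- the weighted sum as a sum over pairs -/
lemma sum_eq {k : ℕ} (a0 b0 : ℤ) (h : Fin k → ℕ) (z R T1 T2 a : ℕ) (Λ : (Fin k → ℕ) → ℝ) :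
    ∑ t ∈ Ioc T1 T2, Gr z (cq a0 b0 h t) a * SS z R Λ (cq a0 b0 h t) a ^ 2 =
      ∑ x ∈ PD (Fin k) z R ×ˢ PD (Fin k) z R, Λ x.1 * Λ x.2 * ((TR a0 b0 h T1 T2 z (lc x) a).card : ℝ) := by
  have h1 : ∀ t ∈ Ioc T1 T2, Gr z (cq a0 b0 h t) a * SS z R Λ (cq a0 b0 h t) a ^ 2 =
      ∑ x ∈ PD (Fin k) z R ×ˢ PD (Fin k) z R, Λ x.1 * Λ x.2 *
        (if Hit (cq a0 b0 h t) (lc x) a ∧ Rgh z (cq a0 b0 h t) a then 1 else 0) := by
    intro t _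
    rw [SS_sq, mul_sum]
    refine sum_congr rfl fun x _ => ?_
    unfold Gr
    by_cases h1 : Hit (cq a0 b0 h t) (lc x) a <;> by_cases h2 : Rgh z (cq a0 b0 h t) a <;> simp [h1, h2]
  rw [sum_congr rfl h1, sum_comm]
  refine sum_congr rfl fun x _ => ?_
  rw [← mul_sum]
  congr 1
  unfold TR
  rw [card_filter]
  push_cast
  rfl

open Classical in
/-- one constant term -/
lemma one_a {k : ℕ} (a0 b0 : ℤ) (h : Fin k → ℕ) (z R T1 T2 a : ℕ) (hT : T1 ≤ T2) (Λ : (Fin k → ℕ) → ℝ) :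
    |∑ t ∈ Ioc T1 T2, Gr z (cq a0 b0 h t) a * SS z R Λ (cq a0 b0 h t) a ^ 2 - ((T2 : ℝ) - T1) * Vq a0 b0 h z a * Qf z R Λ| ≤
      ∑ x ∈ NCF k z R, |Λ x.1 * Λ x.2| *
        |((TR a0 b0 h T1 T2 z (lc x) a).card : ℝ) - roq a0 b0 h x a * (((T2 : ℝ) - T1) / mo x * Vq a0 b0 h z a)| +
      ((T2 : ℝ) - T1) * |∑ x ∈ NCF k z R, Λ x.1 * Λ x.2 * (((roq a0 b0 h x a : ℝ) - 1) / mo x)| +
      ∑ x ∈ CFS k z R, |Λ x.1 * Λ x.2| *
        (((Ioc T1 T2).filter (fun t : ℕ => Hit (cq a0 b0 h t) (lc x) a)).card : ℝ) +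
      ((T2 : ℝ) - T1) * ∑ x ∈ CFS k z R, |Λ x.1 * Λ x.2| * (1 / (mo x : ℝ)) := by
  have hT0 : 0 ≤ (T2 : ℝ) - T1 := by
    have : (T1 : ℝ) ≤ T2 := by exact_mod_cast hT
    linarith
  obtain ⟨hV0, hV1⟩ := Vq_mem a0 b0 h z a
  rw [sum_eq, Qf_eq, split_sum, split_sum]
  set V := Vq a0 b0 h z a with hV
  set T := (T2 : ℝ) - T1 with hTd
  have e1 : ∑ x ∈ NCF k z R, Λ x.1 * Λ x.2 * ((TR a0 b0 h T1 T2 z (lc x) a).card : ℝ) +
      ∑ x ∈ CFS k z R, Λ x.1 * Λ x.2 * ((TR a0 b0 h T1 T2 z (lc x) a).card : ℝ) -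
      T * V * (∑ x ∈ NCF k z R, Λ x.1 * Λ x.2 * (1 / (mo x : ℝ)) + ∑ x ∈ CFS k z R, Λ x.1 * Λ x.2 * (1 / (mo x : ℝ))) =
      ∑ x ∈ NCF k z R, Λ x.1 * Λ x.2 *
        (((TR a0 b0 h T1 T2 z (lc x) a).card : ℝ) - roq a0 b0 h x a * (T / mo x * V)) +
      V * (T * ∑ x ∈ NCF k z R, Λ x.1 * Λ x.2 * (((roq a0 b0 h x a : ℝ) - 1) / mo x)) +
      ∑ x ∈ CFS k z R, Λ x.1 * Λ x.2 * ((TR a0 b0 h T1 T2 z (lc x) a).card : ℝ) -
      V * (T * ∑ x ∈ CFS k z R, Λ x.1 * Λ x.2 * (1 / (mo x : ℝ))) := by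
    have e2 : ∑ x ∈ NCF k z R, Λ x.1 * Λ x.2 *
        (((TR a0 b0 h T1 T2 z (lc x) a).card : ℝ) - roq a0 b0 h x a * (T / mo x * V)) +
        V * (T * ∑ x ∈ NCF k z R, Λ x.1 * Λ x.2 * (((roq a0 b0 h x a : ℝ) - 1) / mo x)) =
        ∑ x ∈ NCF k z R, Λ x.1 * Λ x.2 * ((TR a0 b0 h T1 T2 z (lc x) a).card : ℝ) -
        T * V * ∑ x ∈ NCF k z R, Λ x.1 * Λ x.2 * (1 / (mo x : ℝ)) := by
      rw [mul_sum, mul_sum, mul_sum, ← sum_add_distrib, ← sum_sub_distrib]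
      refine sum_congr rfl fun x _ => ?_
      ring
    rw [e2]
    ring
  rw [e1]
  have b1 : |∑ x ∈ NCF k z R, Λ x.1 * Λ x.2 *
      (((TR a0 b0 h T1 T2 z (lc x) a).card : ℝ) - roq a0 b0 h x a * (T / mo x * V))| ≤
      ∑ x ∈ NCF k z R, |Λ x.1 * Λ x.2| *
        |((TR a0 b0 h T1 T2 z (lc x) a).card : ℝ) - roq a0 b0 h x a * (T / mo x * V)| := by
    refine (abs_sum_le_sum_abs _ _).trans (le_of_eq (sum_congr rfl fun x _ => ?_))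
    rw [abs_mul]
  have b2 : |V * (T * ∑ x ∈ NCF k z R, Λ x.1 * Λ x.2 * (((roq a0 b0 h x a : ℝ) - 1) / mo x))| ≤
      T * |∑ x ∈ NCF k z R, Λ x.1 * Λ x.2 * (((roq a0 b0 h x a : ℝ) - 1) / mo x)| := by
    rw [abs_mul, abs_mul, abs_of_nonneg hV0, abs_of_nonneg hT0]
    exact mul_le_of_le_one_left (mul_nonneg hT0 (abs_nonneg _)) hV1
  have b3 : |∑ x ∈ CFS k z R, Λ x.1 * Λ x.2 * ((TR a0 b0 h T1 T2 z (lc x) a).card : ℝ)| ≤
      ∑ x ∈ CFS k z R, |Λ x.1 * Λ x.2| *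
        (((Ioc T1 T2).filter (fun t : ℕ => Hit (cq a0 b0 h t) (lc x) a)).card : ℝ) := by
    refine (abs_sum_le_sum_abs _ _).trans (sum_le_sum fun x _ => ?_)
    have hc0 : (0 : ℝ) ≤ ((TR a0 b0 h T1 T2 z (lc x) a).card : ℝ) := Nat.cast_nonneg _
    rw [abs_mul (Λ x.1 * Λ x.2), abs_of_nonneg hc0]
    refine mul_le_mul_of_nonneg_left ?_ (abs_nonneg _)
    unfold TR
    exact_mod_cast card_le_card fun t ht => by
      rw [mem_filter] at ht ⊢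
      exact ⟨ht.1, ht.2.1⟩
  have b4 : |V * (T * ∑ x ∈ CFS k z R, Λ x.1 * Λ x.2 * (1 / (mo x : ℝ)))| ≤
      T * ∑ x ∈ CFS k z R, |Λ x.1 * Λ x.2| * (1 / (mo x : ℝ)) := by
    rw [abs_mul, abs_mul, abs_of_nonneg hV0, abs_of_nonneg hT0]
    refine (mul_le_of_le_one_left (mul_nonneg hT0 (abs_nonneg _)) hV1).trans ?_
    refine mul_le_mul_of_nonneg_left ?_ hT0
    refine (abs_sum_le_sum_abs _ _).trans (le_of_eq (sum_congr rfl fun x _ => ?_))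
    rw [abs_mul, abs_of_nonneg (by positivity : (0 : ℝ) ≤ 1 / (mo x : ℝ))]
  refine (abs_sub _ _).trans ?_
  refine add_le_add (((abs_add_three _ _ _).trans ?_)) b4
  exact add_le_add (add_le_add b1 b2) b3

theorem t_MAIN (h1 : S_NC) (h2 : S_VAR) (h3 : S_CFA) : S_MAIN := by
  classical
  intro k A B hk a0 b0 ha0 h hinj
  obtain ⟨E1, h1⟩ := h1 k (A + 1) B hk a0 b0 ha0 h
  obtain ⟨E2, h2⟩ := h2 k (A + 1) B hk a0 b0 ha0 h
  obtain ⟨E3, h3⟩ := h3 k (A + 1) B hk a0 b0 ha0 h hinj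
  refine ⟨max (max E1 E2) E3, fun E => ?_⟩
  obtain ⟨N1, h1⟩ := h1 E
  obtain ⟨N2, h2⟩ := h2 E
  obtain ⟨N3, h3⟩ := h3 E
  have hlim : Filter.Tendsto (fun N : ℕ => Real.log (N : ℝ)) Filter.atTop Filter.atTop :=
    Real.tendsto_log_atTop.comp (tendsto_natCast_atTop_atTop (R := ℝ))
  obtain ⟨N4, h4⟩ := Filter.eventually_atTop.1 (hlim.eventually_ge_atTop 4)
  refine ⟨max (max N1 N2) (max N3 N4), fun N hN z R X T1 T2 hz1 hz2 hR hR80 hXN hT hR16 hNT Λ hΛ1 hΛ2 => ?_⟩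
  have hL4 : 4 ≤ Real.log N := h4 N (le_trans (le_trans (le_max_right _ _) (le_max_right _ _)) hN)
  have hL1 : 1 ≤ Real.log N := by linarith
  have hz : ∀ e, e ≤ max (max E1 E2) E3 → Real.log N ^ e ≤ z := fun e he =>
    (pow_le_pow_right₀ hL1 he).trans hz1
  have a1 := h1 N (le_trans (le_trans (le_max_left _ _) (le_max_left _ _)) hN) z R X T1 T2
    (hz E1 (le_trans (le_max_left _ _) (le_max_left _ _))) hz2 hR hR80 hXN hT hR16 hNT Λ hΛ1 hΛ2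
  have a2 := h2 N (le_trans (le_trans (le_max_right _ _) (le_max_left _ _)) hN) z R X
    (hz E2 (le_trans (le_max_right _ _) (le_max_left _ _))) hz2 hR hR80 hXN Λ hΛ1 hΛ2
  obtain ⟨a3, a4⟩ := h3 N (le_trans (le_trans (le_max_left _ _) (le_max_right _ _)) hN) z R X T1 T2
    (hz E3 (le_max_right _ _)) hz2 hR hR80 hXN hT hR16 Λ hΛ1 hΛ2
  have hT0 : 0 ≤ (T2 : ℝ) - T1 := by
    have : (T1 : ℝ) ≤ T2 := by exact_mod_cast hT
    linarith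
  refine (sum_le_sum fun a _ => one_a a0 b0 h z R T1 T2 a hT Λ).trans ?_
  rw [sum_add_distrib, sum_add_distrib, sum_add_distrib, ← mul_sum]
  have a3' : ∑ a ∈ Icc 1 X, ∑ x ∈ CFS k z R, |Λ x.1 * Λ x.2| *
      (((Ioc T1 T2).filter (fun t : ℕ => Hit (cq a0 b0 h t) (lc x) a)).card : ℝ) ≤
      N * ((T2 : ℝ) - T1) / Real.log N ^ (A + 1) := by
    rw [sum_comm]
    refine le_trans (le_of_eq (sum_congr rfl fun x _ => ?_)) a3
    rw [mul_sum]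
  have a4' : ∑ a ∈ Icc 1 X, ((T2 : ℝ) - T1) * ∑ x ∈ CFS k z R, |Λ x.1 * Λ x.2| * (1 / (mo x : ℝ)) ≤
      N * ((T2 : ℝ) - T1) / Real.log N ^ (A + 1) := by
    rw [sum_const, Nat.card_Icc, nsmul_eq_mul, Nat.add_sub_cancel]
    have hX : (X : ℝ) ≤ N := by exact_mod_cast hXN
    calc (X : ℝ) * (((T2 : ℝ) - T1) * ∑ x ∈ CFS k z R, |Λ x.1 * Λ x.2| * (1 / (mo x : ℝ)))
        ≤ N * (((T2 : ℝ) - T1) * (1 / Real.log N ^ (A + 1))) := by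
          refine mul_le_mul hX (mul_le_mul_of_nonneg_left a4 hT0) (mul_nonneg hT0 ?_) (Nat.cast_nonneg _)
          exact sum_nonneg fun x _ => by positivity
      _ = _ := by ring
  have a2' : ((T2 : ℝ) - T1) * ∑ a ∈ Icc 1 X, |∑ x ∈ NCF k z R, Λ x.1 * Λ x.2 * (((roq a0 b0 h x a : ℝ) - 1) / mo x)| ≤
      N * ((T2 : ℝ) - T1) / Real.log N ^ (A + 1) := by
    refine (mul_le_mul_of_nonneg_left a2 hT0).trans (le_of_eq ?_)
    ring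
  have hpos : 0 < Real.log N ^ (A + 1) := by positivity
  have hNT0 : 0 ≤ (N : ℝ) * ((T2 : ℝ) - T1) := mul_nonneg (Nat.cast_nonneg _) hT0
  have hfin : 4 * (N * ((T2 : ℝ) - T1) / Real.log N ^ (A + 1)) ≤ N * ((T2 : ℝ) - T1) / Real.log N ^ A := by
    rw [pow_succ, ← mul_div_assoc, div_le_div_iff₀ (by positivity) (by positivity)]
    have h5 : 0 ≤ (N : ℝ) * ((T2 : ℝ) - T1) * Real.log N ^ A := by positivity
    nlinarith
  linarith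

end Pool.Agent.L0h85.CL
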