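import Mathlib
import Pool.Agent.L0h42.CL.Stm

/-!
# Project CL, module ERR: the prime part
-/

set_option autoImplicit false

namespace Pool.Agent.L0h85.CL.ERR
open Finset
open Pool.Agent.L0h42.TB
open Pool.Agent.L0h42.CL
open Pool.Agent.H373R2.T7
open Pool.Agent.H807R2.Dav

open Classical in
/-- the sum over all pairs is the sum over the pairs without and with conflict -/
lemma split_sum {k : ℕ} (z R : ℕ) (f : (Fin k → ℕ) × (Fin k → ℕ) → ℝ) :
    ∑ x ∈ PD (Fin k) z R ×ˢ PD (Fin k) z R, f x = ∑ x ∈ NCF k z R, f x + ∑ x ∈ CFS k z R, f x := by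
  unfold NCF CFS
  rw [add_comm]
  exact (sum_filter_add_sum_filter_not _ _ _).symm

open Classical in
/-- truncation of the sieve for one system -/
lemma G_trunc {k : ℕ} (c : ℕ → Fin k → ℤ) (z r a : ℕ) (d : Fin k → ℕ) (I : Finset ℕ) (w : ℕ → ℝ) (W : ℝ)
    (hw : ∀ t ∈ I, |w t| ≤ W) :
    |∑ t ∈ I.filter (fun t => Hit (c t) d a), Gr z (c t) a * w t| ≤
      ∑ S ∈ (pz z).powerset.filter (fun S => S.card < r),
        |∑ t ∈ I.filter (fun t => Hit (c t) d a ∧ ∀ p ∈ S, Som (c t) p a), w t| +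
      W * ∑ S ∈ (pz z).powersetCard r, ((I.filter (fun t => Hit (c t) d a ∧ ∀ p ∈ S, Som (c t) p a)).card : ℝ) := by
  set J := I.filter (fun t => Hit (c t) d a) with hJ
  have hJS : ∀ S : Finset ℕ, I.filter (fun t => Hit (c t) d a ∧ ∀ p ∈ S, Som (c t) p a) =
      J.filter (fun t => ∀ p ∈ S, Som (c t) p a) := by
    intro S
    rw [hJ, filter_filter]
  have e1 : ∑ t ∈ J, Gr z (c t) a * w t =
      ∑ j ∈ range r, ∑ S ∈ (pz z).powersetCard j, (-1 : ℝ) ^ j * ∑ t ∈ J, ind (c t) S a * w t +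
      ∑ t ∈ J, (Gr z (c t) a - ∑ j ∈ range r, (-1 : ℝ) ^ j * ∑ S ∈ (pz z).powersetCard j, ind (c t) S a) * w t := by
    have e2 : ∑ j ∈ range r, ∑ S ∈ (pz z).powersetCard j, (-1 : ℝ) ^ j * ∑ t ∈ J, ind (c t) S a * w t =
        ∑ t ∈ J, (∑ j ∈ range r, (-1 : ℝ) ^ j * ∑ S ∈ (pz z).powersetCard j, ind (c t) S a) * w t := by
      have e3 : ∀ j ∈ range r, ∑ S ∈ (pz z).powersetCard j, (-1 : ℝ) ^ j * ∑ t ∈ J, ind (c t) S a * w t =
          ∑ t ∈ J, (-1 : ℝ) ^ j * (∑ S ∈ (pz z).powersetCard j, ind (c t) S a) * w t := by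
        intro j _
        simp only [mul_sum]
        rw [sum_comm]
        refine sum_congr rfl fun t _ => ?_
        rw [sum_mul]
        refine sum_congr rfl fun S _ => ?_
        ring
      rw [sum_congr rfl e3, sum_comm]
      refine sum_congr rfl fun t _ => ?_
      rw [sum_mul]
    rw [e2, ← sum_add_distrib]
    refine sum_congr rfl fun t _ => ?_
    ring
  rw [e1]
  refine (abs_add_le _ _).trans (add_le_add ?_ ?_)
  · rw [← sum_card_lt]
    refine (abs_sum_le_sum_abs _ _).trans (sum_le_sum fun j _ => ?_)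
    refine (abs_sum_le_sum_abs _ _).trans (sum_le_sum fun S _ => le_of_eq ?_)
    rw [abs_mul, abs_pow, abs_neg, abs_one, one_pow, one_mul, hJS]
    congr 1
    rw [sum_filter (fun t => ∀ p ∈ S, Som (c t) p a)]
    refine sum_congr rfl fun t _ => ?_
    unfold ind
    split_ifs
    · rw [one_mul]
    · rw [zero_mul]
  · refine (abs_sum_le_sum_abs _ _).trans ?_
    have h2 : ∀ t ∈ J, |(Gr z (c t) a - ∑ j ∈ range r, (-1 : ℝ) ^ j * ∑ S ∈ (pz z).powersetCard j, ind (c t) S a) * w t| ≤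
        W * ∑ S ∈ (pz z).powersetCard r, ind (c t) S a := by
      intro t ht
      have h3 := bonf_Gr z (c t) r a
      have h4 := hw t (mem_filter.1 ht).1
      rw [abs_mul, mul_comm]
      exact mul_le_mul h4 h3 (abs_nonneg _) ((abs_nonneg _).trans h4)
    refine (sum_le_sum h2).trans (le_of_eq ?_)
    rw [← mul_sum, sum_comm]
    congr 1
    refine sum_congr rfl fun S _ => ?_
    rw [hJS, card_filter]
    push_cast
    refine sum_congr rfl fun t _ => ?_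
    unfold ind
    rfl

open Classical in
/-- one constant term -/
lemma one_a {k : ℕ} (a0 b0 : ℤ) (h : Fin k → ℕ) (z R T1 T2 r a : ℕ) (Λ : (Fin k → ℕ) → ℝ) (w : ℕ → ℝ) (W : ℝ)
    (hw : ∀ t ∈ Ioc T1 T2, |w t| ≤ W) :
    |∑ t ∈ Ioc T1 T2, Gr z (cq a0 b0 h t) a * SS z R Λ (cq a0 b0 h t) a ^ 2 * w t| ≤
      ∑ x ∈ NCF k z R, |Λ x.1 * Λ x.2| * (∑ S ∈ (pz z).powerset.filter (fun S => S.card < r),
        |∑ t ∈ TT a0 b0 h T1 T2 (lc x) S a, w t| +
        W * ∑ S ∈ (pz z).powersetCard r, ((TT a0 b0 h T1 T2 (lc x) S a).card : ℝ)) +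
      ∑ x ∈ CFS k z R, |Λ x.1 * Λ x.2| *
        (W * (((Ioc T1 T2).filter (fun t : ℕ => Hit (cq a0 b0 h t) (lc x) a)).card : ℝ)) := by
  have e1 : ∑ t ∈ Ioc T1 T2, Gr z (cq a0 b0 h t) a * SS z R Λ (cq a0 b0 h t) a ^ 2 * w t =
      ∑ x ∈ PD (Fin k) z R ×ˢ PD (Fin k) z R, Λ x.1 * Λ x.2 *
        ∑ t ∈ (Ioc T1 T2).filter (fun t : ℕ => Hit (cq a0 b0 h t) (lc x) a), Gr z (cq a0 b0 h t) a * w t := by
    have h1 : ∀ t ∈ Ioc T1 T2, Gr z (cq a0 b0 h t) a * SS z R Λ (cq a0 b0 h t) a ^ 2 * w t =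
        ∑ x ∈ PD (Fin k) z R ×ˢ PD (Fin k) z R, Λ x.1 * Λ x.2 *
          (if Hit (cq a0 b0 h t) (lc x) a then Gr z (cq a0 b0 h t) a * w t else 0) := by
      intro t _
      rw [SS_sq, mul_sum, sum_mul]
      refine sum_congr rfl fun x _ => ?_
      split_ifs
      · ring
      · ring
    rw [sum_congr rfl h1, sum_comm]
    refine sum_congr rfl fun x _ => ?_
    rw [← mul_sum, sum_filter]
  rw [e1, split_sum]
  refine (abs_add_le _ _).trans (add_le_add ?_ ?_)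
  · refine (abs_sum_le_sum_abs _ _).trans (sum_le_sum fun x _ => ?_)
    rw [abs_mul]
    refine mul_le_mul_of_nonneg_left ?_ (abs_nonneg _)
    have := G_trunc (fun t : ℕ => cq a0 b0 h t) z r a (lc x) (Ioc T1 T2) w W hw
    unfold TT
    exact this
  · refine (abs_sum_le_sum_abs _ _).trans (sum_le_sum fun x _ => ?_)
    rw [abs_mul]
    refine mul_le_mul_of_nonneg_left ?_ (abs_nonneg _)
    refine (abs_sum_le_sum_abs _ _).trans ?_
    rw [mul_comm W, ← nsmul_eq_mul]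
    refine sum_le_card_nsmul _ _ _ fun t ht => ?_
    have h4 := hw t (mem_filter.1 ht).1
    rw [abs_mul, abs_of_nonneg (Gr_nonneg _ _ _)]
    exact (mul_le_of_le_one_left (abs_nonneg _) (Gr_le_one _ _ _)).trans h4

/-- the difference between the primes and their model is small -/
lemma dl_le {z n N : ℕ} (hn : n ≤ N) (hV : (Vz z)⁻¹ ≤ Real.log N) (hL : 0 ≤ Real.log N) :
    |dl z n| ≤ 2 * Real.log N := by
  have h1 : 0 ≤ pl n ∧ pl n ≤ Real.log N := by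
    unfold pl
    split_ifs with h
    · refine ⟨Real.log_natCast_nonneg _, Real.log_le_log ?_ ?_⟩
      · exact_mod_cast h.pos
      · exact_mod_cast hn
    · exact ⟨le_rfl, hL⟩
  have h2 : 0 ≤ lamz z n ∧ lamz z n ≤ Real.log N := by
    refine ⟨lamz_nonneg z n, ?_⟩
    unfold lamz
    split_ifs
    · exact hV
    · exact hL
  unfold dl
  rw [abs_le]
  constructor <;> linarith [h1.1, h1.2, h2.1, h2.2]

theorem t_ERR (h1 : S_BD) (h2 : S_TRU) (h3 : S_CFA) : S_ERR := by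
  classical
  intro k A B K' hk a0 b0 ha0 h hinj
  obtain ⟨E1, h1⟩ := h1 k (A + 1) B K' hk a0 b0 ha0 h hinj
  obtain ⟨E2, h2⟩ := h2 k (A + 3) B hk a0 b0 h
  obtain ⟨E3, h3⟩ := h3 k (A + 3) B hk a0 b0 ha0 h hinj
  refine ⟨max (max E1 E2) E3, fun E => ?_⟩
  obtain ⟨N1, h1⟩ := h1 E
  obtain ⟨N2, h2⟩ := h2 E
  obtain ⟨N3, h3⟩ := h3 E
  obtain ⟨N5, h5⟩ := Vz_inv_small E
  have hlim : Filter.Tendsto (fun N : ℕ => Real.log (N : ℝ)) Filter.atTop Filter.atTop :=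
    Real.tendsto_log_atTop.comp (tendsto_natCast_atTop_atTop (R := ℝ))
  obtain ⟨N4, h4⟩ := Filter.eventually_atTop.1 (hlim.eventually_ge_atTop 4)
  refine ⟨max (max (max N1 N2) (max N3 N4)) N5, fun N hN z R X T1 T2 hz1 hz2 hR hR80 hR16 hXK hT hTK hTN hform i Λ hΛ1
    hΛ2 => ?_⟩
  have hN1 : N1 ≤ N := le_trans (le_trans (le_trans (le_max_left _ _) (le_max_left _ _)) (le_max_left _ _)) hN
  have hN2 : N2 ≤ N := le_trans (le_trans (le_trans (le_max_right _ _) (le_max_left _ _)) (le_max_left _ _)) hN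
  have hN3 : N3 ≤ N := le_trans (le_trans (le_trans (le_max_left _ _) (le_max_right _ _)) (le_max_left _ _)) hN
  have hN4 : N4 ≤ N := le_trans (le_trans (le_trans (le_max_right _ _) (le_max_right _ _)) (le_max_left _ _)) hN
  have hN5 : N5 ≤ N := le_trans (le_max_right _ _) hN
  have hL4 : 4 ≤ Real.log N := h4 N hN4
  have hL1 : 1 ≤ Real.log N := by linarith
  have hz : ∀ e, e ≤ max (max E1 E2) E3 → Real.log N ^ e ≤ z := fun e he =>
    (pow_le_pow_right₀ hL1 he).trans hz1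
  have hz0 : 1 ≤ z := by
    have h6 := hz 0 (Nat.zero_le _)
    rw [pow_zero] at h6
    exact_mod_cast h6
  have hV : (Vz z)⁻¹ ≤ Real.log N := h5 N hN5 z hz0 hz2
  -- the interval is not empty
  have hR16' : 1 ≤ R ^ 16 := Nat.one_le_pow _ _ hR
  have hT2 : T1 + 1 ≤ T2 := by omega
  have hXN : X ≤ N := by
    obtain ⟨hf1, hf2⟩ := hform T2 (mem_Ioc.2 ⟨by omega, le_rfl⟩) ⟨0, by omega⟩
    have : (X : ℤ) ≤ N := by linarith [Int.natCast_nonneg z]
    exact_mod_cast this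
  have hT0 : 0 ≤ (T2 : ℝ) - T1 := by
    have : (T1 : ℝ) ≤ T2 := by exact_mod_cast hT
    linarith
  have hΛ3 : ∀ d, Λ d ≠ 0 → ∏ l, d l ≤ R := fun d hd => (hΛ2 d hd).1
  obtain ⟨r, hr1, hrz, hr⟩ := h2 N hN2 z R X T1 T2 (hz E2 (le_trans (le_max_right _ _) (le_max_left _ _))) hz2 hR hR80
    hXN hT
  have a2 := hr Λ hΛ1 hΛ3
  have a1 := h1 N hN1 z R X T1 T2 r (hz E1 (le_trans (le_max_left _ _) (le_max_left _ _))) hz2 hR hR80 hXK hT hTK hTN
    hrz hform i Λ hΛ1 hΛ2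
  obtain ⟨a3, -⟩ := h3 N hN3 z R X T1 T2 (hz E3 (le_max_right _ _)) hz2 hR hR80 hXN hT hR16 Λ hΛ1 hΛ3
  have hw : ∀ a ∈ Icc 1 X, ∀ t ∈ Ioc T1 T2, |dl z (va a0 b0 a (t + h i))| ≤ 2 * Real.log N := by
    intro a ha t ht
    refine dl_le ?_ hV (by linarith)
    obtain ⟨hf1, hf2⟩ := hform t ht i
    rw [mem_Icc] at ha
    unfold va
    rw [Int.toNat_le]
    push_cast
    have : (a : ℤ) ≤ X := by exact_mod_cast ha.2
    linarith
  refine (sum_le_sum fun a ha => one_a a0 b0 h z R T1 T2 r a Λ _ _ (hw a ha)).trans ?_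
  rw [sum_add_distrib, sum_comm, sum_comm (s := Icc 1 X) (t := CFS k z R)]
  have b1 : ∑ x ∈ NCF k z R, ∑ a ∈ Icc 1 X, |Λ x.1 * Λ x.2| * (∑ S ∈ (pz z).powerset.filter (fun S => S.card < r),
        |∑ t ∈ TT a0 b0 h T1 T2 (lc x) S a, dl z (va a0 b0 a (t + h i))| +
        2 * Real.log N * ∑ S ∈ (pz z).powersetCard r, ((TT a0 b0 h T1 T2 (lc x) S a).card : ℝ)) =
      ∑ x ∈ NCF k z R, |Λ x.1 * Λ x.2| * ∑ S ∈ (pz z).powerset.filter (fun S => S.card < r),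
        ∑ a ∈ Icc 1 X, |∑ t ∈ TT a0 b0 h T1 T2 (lc x) S a, dl z (va a0 b0 a (t + h i))| +
      2 * Real.log N * ∑ x ∈ NCF k z R, |Λ x.1 * Λ x.2| * ∑ S ∈ (pz z).powersetCard r, ∑ a ∈ Icc 1 X,
        ((TT a0 b0 h T1 T2 (lc x) S a).card : ℝ) := by
    rw [mul_sum, ← sum_add_distrib]
    refine sum_congr rfl fun x _ => ?_
    rw [← mul_sum, sum_add_distrib, sum_comm, ← mul_sum, sum_comm (s := Icc 1 X)]
    ring
  have b2 : ∑ x ∈ CFS k z R, ∑ a ∈ Icc 1 X, |Λ x.1 * Λ x.2| *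
        (2 * Real.log N * (((Ioc T1 T2).filter (fun t : ℕ => Hit (cq a0 b0 h t) (lc x) a)).card : ℝ)) =
      2 * Real.log N * ∑ x ∈ CFS k z R, |Λ x.1 * Λ x.2| * ∑ a ∈ Icc 1 X,
        (((Ioc T1 T2).filter (fun t : ℕ => Hit (cq a0 b0 h t) (lc x) a)).card : ℝ) := by
    rw [mul_sum]
    refine sum_congr rfl fun x _ => ?_
    rw [← mul_sum, ← mul_sum]
    ring
  rw [b1, b2]
  have hNT0 : 0 ≤ (N : ℝ) * ((T2 : ℝ) - T1) := mul_nonneg (Nat.cast_nonneg _) hT0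
  set L := Real.log N with hLd
  set Q := (N : ℝ) * ((T2 : ℝ) - T1) with hQ
  have hL0 : 0 < L := by linarith
  have e3 : 2 * L * (Q / L ^ (A + 3)) ≤ Q / L ^ (A + 1) := by
    rw [← mul_div_assoc, div_le_div_iff₀ (by positivity) (by positivity)]
    have h6 : 0 ≤ Q * L ^ (A + 1) * L := by positivity
    have h7 : L ^ (A + 3) = L ^ (A + 1) * L * L := by ring
    rw [h7]
    nlinarith
  have e4 : 3 * (Q / L ^ (A + 1)) ≤ Q / L ^ A := by
    rw [pow_succ, ← mul_div_assoc, div_le_div_iff₀ (by positivity) (by positivity)]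
    have h6 : 0 ≤ Q * L ^ A := by positivity
    nlinarith
  have f2 := mul_le_mul_of_nonneg_left a2 (by linarith : (0 : ℝ) ≤ 2 * L)
  have f3 := mul_le_mul_of_nonneg_left a3 (by linarith : (0 : ℝ) ≤ 2 * L)
  linarith

end Pool.Agent.L0h85.CL.ERR
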